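import Pool.Agent.Helper92.RK.Alg

set_option autoImplicit false

/-!
# RK, parts SPL and FPB
-/

namespace Pool.Agent.Helper88.RK

open Finset
open Pool.Agent.Helper92
open Pool.Agent.Helper92.RK
open Pool.Agent.Helper92.AM (sample)

open Classical in
theorem prob_sum {α : Type} [Fintype α] (E : α → Prop) :
    AM.prob E = (∑ x, if E x then (1 : ℝ) else 0) / Fintype.card α := by
  rw [AM.prob_eq, Finset.sum_boole]

theorem prob_equiv {α β : Type} [Fintype α] [Fintype β] (e : α ≃ β) (E : β → Prop) :
    AM.prob (fun x => E (e x)) = AM.prob E := by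
  classical
  rw [prob_sum, prob_sum, Fintype.card_congr e,
    Equiv.sum_comp e (fun y => if E y then (1 : ℝ) else 0)]

theorem prob_prod {α β : Type} [Fintype α] [Fintype β] (E : α → β → Prop) :
    AM.prob (fun z : α × β => E z.1 z.2) = (∑ x, AM.prob (E x)) / Fintype.card α := by
  classical
  rw [prob_sum, Fintype.sum_prod_type, Fintype.card_prod]
  simp only [prob_sum]
  rw [← Finset.sum_div, div_div, Nat.cast_mul, mul_comm (Fintype.card α : ℝ)]

/-- The halves of a vector. -/
def halves (X : Type) (m : ℕ) : (Fin m → X) ≃ (Fin (m / 2) → X) × (Fin (m - m / 2) → X) :=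
  (Equiv.arrowCongr (finSumFinEquiv.trans (finCongr (show m / 2 + (m - m / 2) = m by omega))).symm
    (Equiv.refl X)).trans (Equiv.sumArrowEquivProdArrow _ _ _)

theorem halves_fst {n m : ℕ} (x : Fin m → Fin n → Bool) : (halves _ m x).1 = fstH x := by
  funext j
  rfl

theorem halves_snd {n m : ℕ} (x : Fin m → Fin n → Bool) : (halves _ m x).2 = sndH x := by
  funext j
  rfl

theorem SPL : S_SPL := by
  intro n m
  have key : ∀ E : (Fin (m / 2) → Fin n → Bool) → (Fin (m - m / 2) → Fin n → Bool) → Prop,
      AM.prob (fun x : Fin m → Fin n → Bool => E (fstH x) (sndH x)) =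
        (∑ x, AM.prob (E x)) / Fintype.card (Fin (m / 2) → Fin n → Bool) := by
    intro E
    rw [← prob_prod, ← prob_equiv (halves (Fin n → Bool) m)]
    simp only [halves_fst, halves_snd]
  have hc : (0 : ℝ) < Fintype.card (Fin (m / 2) → Fin n → Bool) := by
    exact_mod_cast Fintype.card_pos
  have hc2 : (0 : ℝ) < Fintype.card (Fin (m - m / 2) → Fin n → Bool) := by
    exact_mod_cast Fintype.card_pos
  refine ⟨fun E p h => ?_, fun A => ?_⟩
  · rw [key, div_le_iff₀ hc]
    calc ∑ x, AM.prob (E x) ≤ ∑ _x : Fin (m / 2) → Fin n → Bool, p :=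
          Finset.sum_le_sum fun x _ => h x
      _ = p * Fintype.card (Fin (m / 2) → Fin n → Bool) := by
          rw [Finset.sum_const, Finset.card_univ, nsmul_eq_mul, mul_comm]
  · have h1 := key (fun x _ => A x)
    rw [h1]
    classical
    rw [prob_sum]
    congr 1
    refine Finset.sum_congr rfl fun x _ => ?_
    rw [prob_sum]
    by_cases h : A x
    · simp only [h, if_true, Finset.sum_const, Finset.card_univ, nsmul_eq_mul, mul_one]
      exact div_self hc2.ne'
    · simp [h]

/-! ### False positives -/

theorem calc_p {p : ℝ} {m : ℕ} (hm : 0 < m) (h0 : 0 ≤ p) (h1 : p ≤ 1) :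
    p * (1 - p) ^ m ≤ 1 / m := by
  have hm' : (0 : ℝ) < m := by exact_mod_cast hm
  have h2 : (1 - p) ^ m ≤ Real.exp (-(p * m)) := by
    have h3 : 1 - p ≤ Real.exp (-p) := by
      have := Real.add_one_le_exp (-p)
      linarith
    calc (1 - p) ^ m ≤ Real.exp (-p) ^ m := pow_le_pow_left₀ (by linarith) h3 m
      _ = Real.exp (-(p * m)) := by
          rw [← Real.exp_nat_mul]
          congr 1
          ring
  have h4 : (p * m) * Real.exp (-(p * m)) ≤ 1 := by
    rw [Real.exp_neg, mul_inv_le_iff₀ (Real.exp_pos _), one_mul]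
    have := Real.add_one_le_exp (p * m)
    linarith
  rw [le_div_iff₀ hm']
  calc p * (1 - p) ^ m * m ≤ p * Real.exp (-(p * m)) * m := by
        gcongr
    _ = (p * m) * Real.exp (-(p * m)) := by ring
    _ ≤ 1 := h4

theorem fpb_gen {X A : Type} [Fintype X] [Nonempty X] [Fintype A] (P : X → Prop) (κ : X → A)
    {m : ℕ} (hm : 0 < m) :
    (∑ x : Fin m → X, AM.prob (fun y : X => P y ∧ ∀ j, P (x j) → κ (x j) ≠ κ y)) /
      (Fintype.card X : ℝ) ^ m ≤ Fintype.card A / m := by
  classical
  have hN : (0 : ℝ) < Fintype.card X := by exact_mod_cast Fintype.card_pos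
  set N : ℝ := ((Fintype.card X : ℕ) : ℝ) with hNdef
  -- the counting of the samples
  have h1 : ∀ y : X, (∑ x : Fin m → X,
      if (P y ∧ ∀ j, P (x j) → κ (x j) ≠ κ y) then (1 : ℝ) else 0) =
      if P y then ((univ.filter fun z => ¬ (P z ∧ κ z = κ y)).card : ℝ) ^ m else 0 := by
    intro y
    by_cases hy : P y
    · simp only [hy, true_and, if_true]
      rw [Finset.sum_boole]
      norm_cast
      rw [← Fintype.card_piFinset_const]
      congr 1
      ext x
      simp only [Finset.mem_filter, Finset.mem_univ, true_and, Fintype.mem_piFinset,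
        not_and]
    · simp [hy]
  have h2 : (∑ x : Fin m → X, AM.prob (fun y : X => P y ∧ ∀ j, P (x j) → κ (x j) ≠ κ y)) =
      (∑ y : X, if P y then ((univ.filter fun z => ¬ (P z ∧ κ z = κ y)).card : ℝ) ^ m else 0) /
        N := by
    simp only [prob_sum]
    rw [← Finset.sum_div, Finset.sum_comm]
    congr 1
    refine Finset.sum_congr rfl fun y _ => ?_
    rw [← h1 y]
    refine Finset.sum_congr rfl fun x _ => ?_
    congr 1
  have h3 : ∀ a : A, ((univ.filter fun z => ¬ (P z ∧ κ z = a)).card : ℝ) =
      N - ((univ.filter fun z => (P z ∧ κ z = a)).card : ℝ) := by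
    intro a
    have := Finset.card_filter_add_card_filter_not (s := (univ : Finset X))
      (p := fun z => (P z ∧ κ z = a))
    rw [Finset.card_univ] at this
    rw [hNdef, ← this]
    push_cast
    ring
  have h4 : (∑ y : X, if P y then ((univ.filter fun z => ¬ (P z ∧ κ z = κ y)).card : ℝ) ^ m
      else 0) = ∑ a : A, ((univ.filter fun z => (P z ∧ κ z = a)).card : ℝ) *
        (N - ((univ.filter fun z => (P z ∧ κ z = a)).card : ℝ)) ^ m := by
    rw [← Finset.sum_fiberwise_of_maps_to (g := κ) (t := (univ : Finset A))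
      (fun x _ => Finset.mem_univ _)]
    refine Finset.sum_congr rfl fun a _ => ?_
    rw [← Finset.sum_filter, Finset.filter_filter, ← h3]
    have h5 : (univ.filter fun z : X => κ z = a ∧ P z) = univ.filter fun z => P z ∧ κ z = a := by
      ext z
      simp only [Finset.mem_filter, Finset.mem_univ, true_and]
      exact and_comm
    rw [h5]
    have h6 : ∀ y ∈ (univ.filter fun z : X => P z ∧ κ z = a),
        ((univ.filter fun z => ¬ (P z ∧ κ z = κ y)).card : ℝ) ^ m =
        ((univ.filter fun z => ¬ (P z ∧ κ z = a)).card : ℝ) ^ m := by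
      intro y hy
      rw [(Finset.mem_filter.mp hy).2.2]
    rw [Finset.sum_congr rfl h6, Finset.sum_const, nsmul_eq_mul]
  rw [h2, h4, div_div, div_le_div_iff₀ (by positivity) (by exact_mod_cast hm), Finset.sum_mul]
  have h7 : ∀ a : A, ((univ.filter fun z => (P z ∧ κ z = a)).card : ℝ) *
        (N - ((univ.filter fun z => (P z ∧ κ z = a)).card : ℝ)) ^ m * m ≤ N * N ^ m := by
    intro a
    set p : ℝ := ((univ.filter fun z => (P z ∧ κ z = a)).card : ℝ) with hp
    have hp0 : 0 ≤ p := Nat.cast_nonneg _
    have hp1 : p ≤ N := by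
      rw [hp, hNdef]
      exact_mod_cast Finset.card_le_univ _
    have h8 := calc_p hm (div_nonneg hp0 hN.le) ((div_le_one hN).mpr hp1)
    rw [le_div_iff₀ (by exact_mod_cast hm)] at h8
    have h9 : p * (N - p) ^ m * m = (p / N * (1 - p / N) ^ m * m) * (N * N ^ m) := by
      have : (N - p) ^ m = (1 - p / N) ^ m * N ^ m := by
        rw [← mul_pow]
        congr 1
        field_simp
      rw [this]
      field_simp
    rw [h9]
    calc (p / N * (1 - p / N) ^ m * m) * (N * N ^ m) ≤ 1 * (N * N ^ m) := by gcongr
      _ = N * N ^ m := one_mul _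
  calc ∑ a : A, ((univ.filter fun z => (P z ∧ κ z = a)).card : ℝ) *
        (N - ((univ.filter fun z => (P z ∧ κ z = a)).card : ℝ)) ^ m * m
      ≤ ∑ _a : A, N * N ^ m := Finset.sum_le_sum fun a _ => h7 a
    _ = Fintype.card A * (N * N ^ m) := by
        rw [Finset.sum_const, Finset.card_univ, nsmul_eq_mul]

theorem mem_negs {n m : ℕ} (f : (Fin n → Bool) → Bool) (x : Fin m → Fin n → Bool)
    (z : List Bool) : z ∈ negs (sample f x) ↔ ∃ j, f (x j) = false ∧ z = List.ofFn (x j) := by
  unfold negs sample
  simp only [List.mem_map, List.mem_filter, List.mem_ofFn, Prod.exists, exists_and_right,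
    exists_eq_right]
  constructor
  · rintro ⟨b, ⟨j, hj⟩, hb⟩
    obtain ⟨h1, h2⟩ := Prod.mk.inj hj
    refine ⟨j, ?_, h1.symm⟩
    rw [h2]
    simpa using hb
  · rintro ⟨j, hj, rfl⟩
    exact ⟨f (x j), ⟨j, rfl⟩, by simp [hj]⟩

theorem prob_mono {α : Type} [Fintype α] {E F : α → Prop} (h : ∀ x, E x → F x) :
    AM.prob E ≤ AM.prob F := by
  classical
  rw [AM.prob_eq, AM.prob_eq]
  refine div_le_div_of_nonneg_right ?_ (Nat.cast_nonneg _)
  have : (univ.filter E).card ≤ (univ.filter F).card := by
    refine Finset.card_le_card fun x hx => ?_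
    rw [Finset.mem_filter] at hx ⊢
    exact ⟨hx.1, h x hx.2⟩
  exact_mod_cast this

theorem prob_or {α : Type} [Fintype α] (E F : α → Prop) :
    AM.prob (fun x => E x ∨ F x) ≤ AM.prob E + AM.prob F := by
  classical
  rw [prob_sum, prob_sum, prob_sum, ← add_div, ← Finset.sum_add_distrib]
  gcongr with x
  by_cases h1 : E x <;> by_cases h2 : F x <;> simp [h1, h2]

theorem FPB : S_FPB := by
  intro n b m C f hm hC
  have hcard : (Fintype.card (Fin n → Bool) : ℝ) = 2 ^ n := by
    simp
  induction C with
  | nil =>
    have : ∀ x : Fin m → Fin n → Bool, AM.prob (fun y : Fin n → Bool => f y = false ∧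
        hv (([] : List (List ℕ)), negs (sample f x)) (List.ofFn y) = true) = 0 := by
      intro x
      classical
      rw [prob_sum]
      simp [hv]
    simp [this]
  | cons V C ih =>
    have ih' := ih (fun W hW => hC W (List.mem_cons_of_mem _ hW))
    have hV : V.length ≤ b := hC V List.mem_cons_self
    have h1 := fpb_gen (X := Fin n → Bool) (A := Fin V.length → Bool) (fun y => f y = false)
      (fun y t => (List.ofFn y).getD (V.get t) false) hm
    rw [hcard] at h1
    have hm' : (0 : ℝ) < m := by exact_mod_cast hm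
    have h2 : (Fintype.card (Fin V.length → Bool) : ℝ) / m ≤ 2 ^ b / m := by
      have : (Fintype.card (Fin V.length → Bool) : ℝ) = 2 ^ V.length := by simp
      rw [this]
      gcongr
      norm_num
    have h3 : ∀ x : Fin m → Fin n → Bool, AM.prob (fun y : Fin n → Bool => f y = false ∧
        hv (V :: C, negs (sample f x)) (List.ofFn y) = true) ≤
        AM.prob (fun y : Fin n → Bool => f y = false ∧ ∀ j, f (x j) = false →
          (fun t : Fin V.length => (List.ofFn (x j)).getD (V.get t) false) ≠
            fun t => (List.ofFn y).getD (V.get t) false) +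
        AM.prob (fun y : Fin n → Bool => f y = false ∧
          hv (C, negs (sample f x)) (List.ofFn y) = true) := by
      intro x
      refine le_trans (prob_mono ?_) (prob_or _ _)
      rintro y ⟨hy, hv1⟩
      have h4 : hv (V :: C, negs (sample f x)) (List.ofFn y) =
          (((negs (sample f x)).all fun z =>
            !(V.all fun i => decide (z.getD i false = (List.ofFn y).getD i false))) ||
            hv (C, negs (sample f x)) (List.ofFn y)) := by
        unfold hv
        rw [List.any_cons]
      rw [h4, Bool.or_eq_true] at hv1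
      rcases hv1 with h | h
      · left
        refine ⟨hy, fun j hj he => ?_⟩
        rw [List.all_eq_true] at h
        have h5 := h (List.ofFn (x j)) ((mem_negs f x _).mpr ⟨j, hj, rfl⟩)
        rw [Bool.not_eq_true', ← Bool.not_eq_true] at h5
        apply h5
        rw [List.all_eq_true]
        intro i hi
        obtain ⟨t, ht⟩ := List.get_of_mem hi
        have h6 := congrFun he t
        rw [ht] at h6
        exact decide_eq_true h6
      · right
        exact ⟨hy, h⟩
    calc (∑ x : Fin m → Fin n → Bool, AM.prob (fun y : Fin n → Bool => f y = false ∧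
          hv (V :: C, negs (sample f x)) (List.ofFn y) = true)) / ((2 : ℝ) ^ n) ^ m
        ≤ (∑ x : Fin m → Fin n → Bool, (AM.prob (fun y : Fin n → Bool => f y = false ∧ ∀ j,
          f (x j) = false →
          (fun t : Fin V.length => (List.ofFn (x j)).getD (V.get t) false) ≠
            fun t => (List.ofFn y).getD (V.get t) false) +
        AM.prob (fun y : Fin n → Bool => f y = false ∧
          hv (C, negs (sample f x)) (List.ofFn y) = true))) / ((2 : ℝ) ^ n) ^ m := by
          gcongr with x _
          exact h3 x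
      _ ≤ 2 ^ b / m + C.length * 2 ^ b / m := by
          rw [Finset.sum_add_distrib, add_div]
          exact add_le_add (h1.trans h2) ih'
      _ = ((V :: C).length : ℝ) * 2 ^ b / m := by
          rw [List.length_cons]
          push_cast
          ring

end Pool.Agent.Helper88.RK
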